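import Pool.Agent.W688.PR.ZPOW

/-!
# Project PR (helper295): PR-BP
-/

set_option autoImplicit false

namespace Pool.Agent.W688.PR.BP

open Pool.Agent.W295.PR
open Pool.Agent.W688.PR.ZPOW (dd_one isPoly_one lcsF_top)

theorem isPoly_mono {R : Type} [AddCommGroup R] {G : Type} [Group G] (RF : ℕ → AddSubgroup R)
    (GF GF' : ℕ → Subgroup G) (h : ∀ i, GF i ≤ GF' i) (n : ℕ) :
    ∀ l f, IsPoly RF GF n l f → IsPoly RF GF' n l f := by
  induction n with
  | zero => intro l f hf x; exact h l (hf x)
  | succ n ih => intro l f hf; exact ⟨ih l f hf.1, fun j hj k hk => ih _ _ (hf.2 j hj k hk)⟩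

theorem lcsF_mono {G : Type} [Group G] {N N' : ℕ} (hN : 1 ≤ N) (hNN : N ≤ N') (i : ℕ) :
    lcsF G N i ≤ lcsF G N' i := by
  unfold lcsF
  apply Subgroup.lowerCentralSeries_antitone
  apply Nat.sub_le_sub_right
  obtain ⟨k, hk⟩ : ∃ k, k = (i + N - 1) / N := ⟨_, rfl⟩
  rw [← hk]
  have h1 : i + N - 1 < (k + 1) * N := by
    rw [hk]
    have := Nat.lt_div_mul_add (a := i + N - 1) (b := N) (by omega)
    linarith
  have h2 : i ≤ k * N := by
    have : (k + 1) * N = k * N + N := by ring
    omega
  have h3 : k * N ≤ k * N' := Nat.mul_le_mul_left k hNN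
  have h4 : (i + N' - 1) / N' < k + 1 := by
    rw [Nat.div_lt_iff_lt_mul (by omega)]
    have : (k + 1) * N' = k * N' + N' := by ring
    omega
  omega

theorem main (h1 : S_PG) (h2 : S_FILT) (h3 : S_ZPOW) : S_BP := by
  intro R _ G _ N hN
  have hF := h2 G N hN
  refine ⟨?_, ?_, ?_, ?_, ?_⟩
  · intro f g hf hg n
    exact (h1 R G (RF1 R) (lcsF G N) hF n).2.1 0 f g (hf n) (hg n)
  · intro f hf n
    exact (h1 R G (RF1 R) (lcsF G N) hF n).2.2.1 0 f (hf n)
  · intro N' hNN f hf n
    exact isPoly_mono _ _ _ (lcsF_mono hN hNN) n 0 f (hf n)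
  · intro m b d hm hd n
    exact h3 R G N d m b hN hm 0 (by omega) n
  · intro c n
    cases n with
    | zero =>
      intro x
      show c ∈ lcsF G N 0
      rw [lcsF_top hN (by omega)]
      exact Subgroup.mem_top _
    | succ n =>
      induction n with
      | zero =>
        refine ⟨?_, ?_⟩
        · intro x
          show c ∈ lcsF G N 0
          rw [lcsF_top hN (by omega)]
          exact Subgroup.mem_top _
        · intro j _ h _
          have e : dd h (fun _ : R => c) = fun _ => 1 := by
            funext x; unfold dd; simp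
          rw [e]
          exact isPoly_one _ _ _ _
      | succ n ih =>
        refine ⟨ih, ?_⟩
        intro j _ h _
        have e : dd h (fun _ : R => c) = fun _ => 1 := by
          funext x; unfold dd; simp
        rw [e]
        exact isPoly_one _ _ _ _

end Pool.Agent.W688.PR.BP
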