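import Pool.Agent.W295.PR.Stm

/-!
# Project PR (helper295): PR-ZPOW
-/

set_option autoImplicit false

namespace Pool.Agent.W688.PR.ZPOW

open Pool.Agent.W295.PR

theorem dd_one {R : Type} [AddCommGroup R] {G : Type} [Group G] (h : R) :
    dd h (fun _ : R => (1 : G)) = fun _ => 1 := by
  funext x
  unfold dd
  simp

theorem isPoly_one {R : Type} [AddCommGroup R] {G : Type} [Group G] (RF : ℕ → AddSubgroup R)
    (GF : ℕ → Subgroup G) (n : ℕ) : ∀ l, IsPoly RF GF n l (fun _ => 1) := by
  induction n with
  | zero => intro l x; exact (GF l).one_mem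
  | succ n ih =>
    intro l
    refine ⟨ih l, fun j _ h _ => ?_⟩
    rw [dd_one]
    exact ih _

theorem lcsF_top {G : Type} [Group G] {N l : ℕ} (hN : 1 ≤ N) (hl : l ≤ N) : lcsF G N l = ⊤ := by
  unfold lcsF
  have h1 : (l + N - 1) / N - 1 = 0 := by
    have h2 : (l + N - 1) / N < 2 := by
      rw [Nat.div_lt_iff_lt_mul (by omega)]
      omega
    omega
  rw [h1]
  rfl

theorem main : S_ZPOW := by
  intro R _ G _ N d m b hN hm l hl n
  induction n generalizing l d m with
  | zero =>
    intro x
    show b ^ m x ∈ lcsF G N l
    rw [lcsF_top hN (by omega)]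
    exact Subgroup.mem_top _
  | succ n ih =>
    refine ⟨ih d m hm l hl, ?_⟩
    intro j hj h hh
    have e : dd h (fun x => b ^ m x) = fun x => b ^ (m (x + h) - m x) := by
      funext x
      unfold dd
      rw [zpow_sub]
    rw [e]
    unfold RF1 at hh
    split_ifs at hh with h1
    · have hj1 : j = 1 := by omega
      subst hj1
      cases d with
      | zero =>
        have e2 : (fun x => b ^ (m (x + h) - m x)) = fun _ => 1 := by
          funext x
          have h2 : m (x + h) = m x := hm h x
          rw [h2, sub_self, zpow_zero]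
        rw [e2]
        exact isPoly_one _ _ _ _
      | succ d => exact ih d _ (hm h) (l + 1) (by omega)
    · rw [AddSubgroup.mem_bot] at hh
      have e2 : (fun x => b ^ (m (x + h) - m x)) = fun _ => 1 := by
        funext x
        rw [hh, add_zero, sub_self, zpow_zero]
      rw [e2]
      exact isPoly_one _ _ _ _

end Pool.Agent.W688.PR.ZPOW
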